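import Pool.Agent.PMB.Pi
import Pool.Agent.NegLim.Circuit

/-!
# Perfect matchings: the two distributions, circuits
-/

namespace Pool.Agent.PMB

open Finset Pool.Agent.NegLim
open scoped BigOperators

set_option linter.unusedSectionVars false

section markov

variable {V : Type} [Fintype V] [DecidableEq V]

theorem nz_card_le (M : ℕ) (x : Finset V) :
    nz M (fun y => (y.card : ℝ)) x ≤ x.card + (Fintype.card V : ℝ) / (M + 1) := by
  rw [nz_apply]
  have h1 : ∀ ω : V → Fin (M + 1), (((x ∪ zset M ω).card : ℕ) : ℝ)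
      ≤ x.card + ∑ v : V, (if ({v} : Finset V) ⊆ zset M ω then (1 : ℝ) else 0) := by
    intro ω
    have h2 : (((x ∪ zset M ω).card : ℕ) : ℝ) ≤ x.card + (zset M ω).card := by
      exact_mod_cast card_union_le x (zset M ω)
    have h3 : ∑ v : V, (if ({v} : Finset V) ⊆ zset M ω then (1 : ℝ) else 0)
        = ((zset M ω).card : ℝ) := by
      simp only [singleton_subset_iff]
      rw [Finset.sum_ite_mem, univ_inter, Finset.sum_const, nsmul_eq_mul, mul_one]
    rw [h3]; exact h2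
  refine (Finset.expect_le_expect fun ω _ => h1 ω).trans ?_
  rw [Finset.expect_add_distrib, Fintype.expect_const, Finset.expect_sum_comm]
  simp only [expect_subset_zset, card_singleton, pow_one, Finset.sum_const, card_univ,
    nsmul_eq_mul]
  rw [mul_one_div]

theorem nz_pow_card_le (M k : ℕ) (x : Finset V) :
    (nz M ^ k) (fun y => (y.card : ℝ)) x ≤ x.card + k * ((Fintype.card V : ℝ) / (M + 1)) := by
  induction k generalizing x with
  | zero => simp
  | succ k ih =>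
    rw [pow_succ']
    simp only [Module.End.mul_apply]
    have h1 : (nz M ^ k) (fun y : Finset V => (y.card : ℝ)) ≤ (fun y : Finset V => (y.card : ℝ))
        + fun _ => k * ((Fintype.card V : ℝ) / (M + 1)) := fun y => ih y
    have h2 := nz_mono M h1 x
    rw [map_add, nz_const, Pi.add_apply] at h2
    have h3 := nz_card_le M x
    push_cast
    linarith

/-- Markov's inequality for the random set. -/
theorem nz_pow_markov (M k n : ℕ) (hn : 0 < n) :
    (nz M ^ k) (ind {y : Finset V | n ≤ y.card}) ∅ ≤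
      k * ((Fintype.card V : ℝ) / (M + 1)) / n := by
  have hn' : (0 : ℝ) < n := by exact_mod_cast hn
  have h1 : ind {y : Finset V | n ≤ y.card} ≤ (1 / (n : ℝ)) • fun y : Finset V => (y.card : ℝ) := by
    intro y
    rw [Pi.smul_apply, smul_eq_mul]
    by_cases hy : y ∈ {y : Finset V | n ≤ y.card}
    · rw [ind_of_mem hy, one_div, inv_mul_eq_div, le_div_iff₀ hn', one_mul]
      exact_mod_cast hy
    · rw [ind_of_notMem hy]
      positivity
  have h2 := nz_pow_mono M k h1 ∅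
  rw [map_smul, Pi.smul_apply, smul_eq_mul] at h2
  refine h2.trans ?_
  rw [one_div, inv_mul_eq_div]
  apply div_le_div_of_nonneg_right _ hn'.le
  simpa using nz_pow_card_le M k (∅ : Finset V)

end markov

/-- A graph which contains a perfect matching has no vertex cover with fewer than `n` vertices. -/
theorem le_card_of_cover {n : ℕ} {π : Equiv.Perm (Fin n)} {x : Finset (Fin n ⊕ Fin n)}
    (h : pgraph π ⊆ touch x) : n ≤ x.card := by
  have h1 : ∀ a : Fin n, Sum.inl a ∈ x ∨ Sum.inr (π a) ∈ x := by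
    intro a
    have : (a, π a) ∈ touch x := h (mem_pgraph.mpr rfl)
    exact mem_touch.mp this
  have h2 : (univ.image fun a : Fin n => if Sum.inl a ∈ x then (Sum.inl a : Fin n ⊕ Fin n)
      else Sum.inr (π a)) ⊆ x := by
    intro v hv
    obtain ⟨a, _, rfl⟩ := mem_image.mp hv
    split_ifs with h3
    · exact h3
    · exact (h1 a).resolve_left h3
  have h3 := card_le_card h2
  rwa [card_image_of_injective, card_univ, Fintype.card_fin] at h3
  intro a a' haa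
  dsimp only at haa
  split_ifs at haa
  · exact Sum.inl.inj haa
  · exact π.injective (Sum.inr.inj haa)

/-- The graphs which contain a perfect matching. -/
def HasM (n : ℕ) : Set (Finset (Fin n × Fin n)) := {x | ∃ π : Equiv.Perm (Fin n), pgraph π ⊆ x}

theorem star_prob (M k n : ℕ) (hn : 0 < n) :
    (nz M ^ k) (ind (pull (HasM n))) ∅ ≤ 2 * k / (M + 1) := by
  have h1 : pull (HasM n) ⊆ {y : Finset (Fin n ⊕ Fin n) | n ≤ y.card} := by
    rintro x ⟨π, hπ⟩
    exact le_card_of_cover hπ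
  refine (nz_pow_mono M k (ind_mono h1) ∅).trans ((nz_pow_markov M k n hn).trans ?_)
  have hn' : (0 : ℝ) < n := by exact_mod_cast hn
  rw [Fintype.card_sum, Fintype.card_fin]
  push_cast
  apply le_of_eq
  field_simp
  ring

/-- A circuit without NOT gates. -/
theorem mon_of_circuit {V : Type} [Fintype V] [DecidableEq V] (C : Circuit V)
    (h0 : Circuit.negs C = 0) (out : Wire V) :
    MonSize (Circuit.size C) {x | Circuit.val C (chi x) out = true} := by
  obtain ⟨U, _, J, _, sel, g, fs, hU, hJ, hg, hfs, hsel, hval⟩ := decomp C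
  rw [h0, pow_zero] at hU
  have hsub : Subsingleton U := Fintype.card_le_one_iff_subsingleton.mp hU.le
  obtain ⟨D, hD, hfD⟩ := hfs (sel ∅)
  refine ⟨Circuit.size C - Circuit.negs C, Nat.sub_le _ _, D, hD, ?_⟩
  have h1 : {x | Circuit.val C (chi x) out = true} = out.fam (fs (sel ∅)) := by
    ext x
    rw [Set.mem_ofPred_eq, Circuit.val, hval x, Wire.val_fam, mb_iff,
      Subsingleton.elim (sel x) (sel ∅)]
  rw [h1]
  exact Wire.fam_mem hD.base_subset hfD out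

/-- The numbers. -/
theorem match_domination {b w : ℕ} (hw : 1 ≤ w)
    (hb : 2 ^ 21 * w ^ 5 * (Nat.log 2 b + 1) ^ 2 ≤ b)
    (hsp : Spread (fun π : Equiv.Perm (Fin b) => pgraph π) w ((b : ℝ) / 2))
    {s : ℕ} {g : Set (Finset (Fin b × Fin b))} (hg : MonSize s g) :
    (𝔼 π : Equiv.Perm (Fin b), ind g (pgraph π)) ≤
      (nz (8 * (w * (4 * Nat.log 2 b + 7)) - 1) ^ (w * (4 * Nat.log 2 b + 7))) (ind (pull g)) ∅
        + 1 / 4 + s * (2 * (1 / 2 : ℝ) ^ w) := by
  obtain ⟨s', hs', D, hD, hgD⟩ := hg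
  set l := Nat.log 2 b + 1 with hl
  have hl1 : 1 ≤ l := by omega
  have hk : w * (4 * Nat.log 2 b + 7) = w * (4 * l + 3) := by rw [hl]; ring
  rw [hk]
  set k := w * (4 * l + 3) with hkdef
  have hk1 : 1 ≤ k := by rw [hkdef]; exact Nat.mul_pos hw (by omega)
  have hk7 : k ≤ 7 * (w * l) := by
    rw [hkdef]
    have : w * (4 * l + 3) ≤ w * (7 * l) := Nat.mul_le_mul_left w (by omega)
    calc w * (4 * l + 3) ≤ w * (7 * l) := this
      _ = 7 * (w * l) := by ring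
  have hb0 : 1 ≤ b := by
    have : 1 ≤ 2 ^ 21 * w ^ 5 * l ^ 2 := Nat.mul_pos (Nat.mul_pos (by norm_num) (by positivity))
      (by positivity)
    omega
  have hbl : b + 1 ≤ 2 ^ l := Nat.lt_pow_succ_log_self (by norm_num) b
  have hM : (((8 * k - 1 : ℕ) : ℝ) + 1) = 8 * k := by
    have h1 : ((8 * k - 1 + 1 : ℕ) : ℝ) = ((8 * k : ℕ) : ℝ) := by
      congr 1; omega
    push_cast at h1 ⊢
    exact h1
  have hbR : (2 : ℝ) ^ 21 * w ^ 5 * l ^ 2 ≤ b := by exact_mod_cast hb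
  have hkR : (k : ℝ) ≤ 7 * (w * l) := by exact_mod_cast hk7
  have hw0 : (0 : ℝ) < w := by exact_mod_cast hw
  have hl0 : (0 : ℝ) < l := by exact_mod_cast hl1
  have hbR0 : (0 : ℝ) < b := by exact_mod_cast hb0
  have hk0 : (0 : ℝ) < k := by exact_mod_cast hk1
  have hk2 : (k : ℝ) ^ 2 ≤ 49 * (w ^ 2 * l ^ 2) := by
    calc (k : ℝ) ^ 2 ≤ (7 * (w * l)) ^ 2 := pow_le_pow_left₀ hk0.le hkR 2
      _ = 49 * (w ^ 2 * l ^ 2) := by ring
  have hrb : 2 ^ 11 * (w : ℝ) ^ 3 * k ^ 2 * 16 ≤ b := by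
    have h1 : 2 ^ 11 * (w : ℝ) ^ 3 * k ^ 2 * 16 ≤ 2 ^ 11 * (w : ℝ) ^ 3 * (49 * (w ^ 2 * l ^ 2)) * 16 := by
      gcongr
    have h2 : 2 ^ 11 * (w : ℝ) ^ 3 * (49 * (w ^ 2 * l ^ 2)) * 16 ≤ (2 : ℝ) ^ 21 * w ^ 5 * l ^ 2 := by
      have h3 : 0 ≤ (w : ℝ) ^ 5 * l ^ 2 := by positivity
      nlinarith
    linarith
  set r : ℝ := 2 ^ 11 * (w : ℝ) ^ 3 * k ^ 2 with hr
  have hr0 : 0 ≤ r := by positivity
  have h := domination (fun π : Equiv.Perm (Fin b) => pgraph π) (8 * k - 1) k w hw ((b : ℝ) / 2) r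
    (by positivity) (by rw [hM, hr]; push_cast; apply le_of_eq; ring)
    (by linarith) hsp (fun π => pgraph_isM π) ?_ hD hgD
  · have h1 : 2 * (r / ((b : ℝ) / 2)) ≤ 1 / 4 := by
      rw [div_div_eq_mul_div, mul_div_assoc', div_le_div_iff₀ hbR0 (by norm_num)]
      linarith
    have h2 : (s' : ℝ) * (2 * (1 / 2 : ℝ) ^ w) ≤ s * (2 * (1 / 2 : ℝ) ^ w) := by
      apply mul_le_mul_of_nonneg_right _ (by positivity)
      exact_mod_cast hs'
    linarith
  · rw [Fintype.card_prod, Fintype.card_fin]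
    have h1 : ((b * b : ℕ) : ℝ) + 1 ≤ 2 ^ (2 * l) := by
      have h2 : b * b + 1 ≤ 2 ^ (2 * l) := by
        calc b * b + 1 ≤ (b + 1) * (b + 1) := by nlinarith
          _ ≤ 2 ^ l * 2 ^ l := Nat.mul_le_mul hbl hbl
          _ = 2 ^ (2 * l) := by rw [← pow_add, two_mul]
      exact_mod_cast h2
    have h2 : (((b * b : ℕ) : ℝ) + 1) ^ (2 * w) ≤ 2 ^ (4 * l * w) := by
      calc (((b * b : ℕ) : ℝ) + 1) ^ (2 * w) ≤ (2 ^ (2 * l)) ^ (2 * w) :=
            pow_le_pow_left₀ (by positivity) h1 _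
        _ = 2 ^ (4 * l * w) := by rw [← pow_mul]; congr 1; ring
    have h3 : (2 : ℝ) ^ (4 * l * w) * (2 ^ (2 * w) * (1 / 2) ^ k) = (1 / 2) ^ w := by
      have h4 : k = 4 * l * w + 2 * w + w := by rw [hkdef]; ring
      rw [h4, pow_add (1 / 2 : ℝ), pow_add (1 / 2 : ℝ)]
      have h5 : ∀ m : ℕ, (2 : ℝ) ^ m * (1 / 2) ^ m = 1 := by
        intro m; rw [← mul_pow]; norm_num
      calc (2 : ℝ) ^ (4 * l * w) * (2 ^ (2 * w) * ((1 / 2) ^ (4 * l * w) * (1 / 2) ^ (2 * w)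
            * (1 / 2) ^ w)) = (2 ^ (4 * l * w) * (1 / 2) ^ (4 * l * w)) *
            (2 ^ (2 * w) * (1 / 2) ^ (2 * w)) * (1 / 2) ^ w := by ring
        _ = (1 / 2) ^ w := by rw [h5, h5]; ring
    rw [← h3]
    exact mul_le_mul_of_nonneg_right h2 (by positivity)

/-- **Monotone circuits for bipartite perfect matching.** -/
theorem match_mon {b w : ℕ} (hw : 1 ≤ w)
    (hb : 2 ^ 21 * w ^ 5 * (Nat.log 2 b + 1) ^ 2 ≤ b)
    (hsp : Spread (fun π : Equiv.Perm (Fin b) => pgraph π) w ((b : ℝ) / 2))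
    {s : ℕ} (hg : MonSize s (HasM b)) : 2 ^ w ≤ 4 * s := by
  have hb0 : 0 < b := by
    have : 1 ≤ 2 ^ 21 * w ^ 5 * (Nat.log 2 b + 1) ^ 2 := Nat.mul_pos (Nat.mul_pos (by norm_num)
      (by positivity)) (by positivity)
    omega
  have h1 := match_domination hw hb hsp hg
  have h2 : (𝔼 π : Equiv.Perm (Fin b), ind (HasM b) (pgraph π)) = 1 := by
    have : ∀ π : Equiv.Perm (Fin b), ind (HasM b) (pgraph π) = (1 : ℝ) := fun π =>
      ind_of_mem ⟨π, Subset.refl _⟩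
    simp only [this]
    exact Fintype.expect_const 1
  have h3 := star_prob (8 * (w * (4 * Nat.log 2 b + 7)) - 1) (w * (4 * Nat.log 2 b + 7)) b hb0
  set k := w * (4 * Nat.log 2 b + 7) with hk
  have hk1 : 1 ≤ k := Nat.mul_pos hw (by omega)
  have hM : (((8 * k - 1 : ℕ) : ℝ) + 1) = 8 * k := by
    have h1 : ((8 * k - 1 + 1 : ℕ) : ℝ) = ((8 * k : ℕ) : ℝ) := by
      congr 1; omega
    push_cast at h1 ⊢
    exact h1
  have hk0 : (0 : ℝ) < k := by exact_mod_cast hk1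
  rw [hM] at h3
  have h4 : 2 * (k : ℝ) / (8 * k) = 1 / 4 := by
    field_simp; norm_num
  rw [h4] at h3
  rw [h2] at h1
  have h5 : (1 : ℝ) / 2 ≤ s * (2 * (1 / 2 : ℝ) ^ w) := by linarith
  have h6 : (2 : ℝ) ^ w * (1 / 2) ^ w = 1 := by rw [← mul_pow]; norm_num
  have h7 : (0 : ℝ) < 2 ^ w := by positivity
  have h8 := mul_le_mul_of_nonneg_left h5 h7.le
  have h9 : (2 : ℝ) ^ w * (s * (2 * (1 / 2) ^ w)) = 2 * s := by
    calc (2 : ℝ) ^ w * (s * (2 * (1 / 2) ^ w)) = 2 * s * (2 ^ w * (1 / 2) ^ w) := by ring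
      _ = 2 * s := by rw [h6, mul_one]
  rw [h9] at h8
  have h10 : (2 : ℝ) ^ w ≤ 4 * s := by linarith
  exact_mod_cast h10

/-- `u` has a perfect matching. -/
def HasPM {m : ℕ} (u : Fin m × Fin m → Bool) : Prop := ∃ π : Equiv.Perm (Fin m), ∀ i, u (i, π i) = true

theorem hasM_iff {m : ℕ} (x : Finset (Fin m × Fin m)) : x ∈ HasM m ↔ HasPM (chi x) := by
  constructor
  · rintro ⟨π, hπ⟩
    exact ⟨π, fun i => by simpa [chi] using hπ (mem_pgraph.mpr rfl)⟩
  · rintro ⟨π, hπ⟩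
    refine ⟨π, fun e he => ?_⟩
    have h1 := hπ e.1
    rw [mem_pgraph.mp he] at h1
    simpa [chi] using h1

theorem match_circuit4 (m w : ℕ) (hw : 1 ≤ w) (hm : 2 ^ 21 * w ^ 5 * (Nat.log 2 m + 1) ^ 2 ≤ m)
    (C : Circuit (Fin m × Fin m)) (o : Wire (Fin m × Fin m)) (hn : Circuit.negs C = 0)
    (hC : ∀ u, Circuit.val C u o = true ↔ HasPM u) : 2 ^ w ≤ 4 * Circuit.size C := by
  have hm1 : 4 * w ≤ m := by
    refine le_trans ?_ hm
    have h1 : w ≤ w ^ 5 := Nat.le_self_pow (by norm_num) w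
    have h2 : 1 ≤ (Nat.log 2 m + 1) ^ 2 := Nat.one_le_pow _ _ (by omega)
    calc 4 * w ≤ 2 ^ 21 * w ^ 5 * 1 := by omega
      _ ≤ 2 ^ 21 * w ^ 5 * (Nat.log 2 m + 1) ^ 2 := Nat.mul_le_mul_left _ h2
  refine match_mon hw hm (spread_pgraph hm1 (by omega)) ?_
  have h1 := mon_of_circuit C hn o
  have h2 : {x | Circuit.val C (chi x) o = true} = HasM m := by
    ext x
    rw [Set.mem_ofPred_eq, hC, hasM_iff]
  rwa [h2] at h1

/-- **Circuits without NOT gates for bipartite perfect matching.** -/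
theorem match_circuit (m w : ℕ) (hw : 1 ≤ w) (hm : 2 ^ 29 * w ^ 5 * (Nat.log 2 m + 1) ^ 2 ≤ m)
    (C : Circuit (Fin m × Fin m)) (o : Wire (Fin m × Fin m)) (hn : Circuit.negs C = 0)
    (hC : ∀ u, Circuit.val C u o = true ↔ HasPM u) : 2 ^ w ≤ Circuit.size C := by
  have h1 : 2 ^ 21 * (w + 2) ^ 5 * (Nat.log 2 m + 1) ^ 2 ≤ m := by
    refine le_trans ?_ hm
    have h2 : (w + 2) ^ 5 ≤ 243 * w ^ 5 := by
      calc (w + 2) ^ 5 ≤ (3 * w) ^ 5 := Nat.pow_le_pow_left (by omega) 5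
        _ = 243 * w ^ 5 := by ring
    apply Nat.mul_le_mul_right
    calc 2 ^ 21 * (w + 2) ^ 5 ≤ 2 ^ 21 * (243 * w ^ 5) := Nat.mul_le_mul_left _ h2
      _ = (2 ^ 21 * 243) * w ^ 5 := by ring
      _ ≤ 2 ^ 29 * w ^ 5 := Nat.mul_le_mul_right _ (by norm_num)
  have h2 := match_circuit4 m (w + 2) (by omega) h1 C o hn hC
  rw [pow_add] at h2
  omega

end Pool.Agent.PMB
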