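import Pool.Agent.PMB.Key

/-!
# Closure, and approximation of monotone computations on bipartite graphs
-/

namespace Pool.Agent.PMB

open Finset Pool.Agent.NegLim
open scoped BigOperators

set_option linter.unusedSectionVars false

variable {α β : Type} [Fintype α] [DecidableEq α] [Fintype β] [DecidableEq β]

theorem sum_ind_le (M k c : ℕ) {F : Set (Finset (α × β))} {T : Finset (α × β)}
    (hTc : T.card ≤ c)
    (hTp : ∀ τ ∈ T.powerset, 1 - (1 / 2 : ℝ) ^ k ≤ (nz M ^ k) (ind (pull F)) (sig T τ)) :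
    (nz M ^ k) (∑ τ ∈ T.powerset, fun y => 1 - ind (pull F) (sig T τ ∪ y)) ∅ ≤
      2 ^ c * (1 / 2 : ℝ) ^ k := by
  rw [map_sum, Finset.sum_apply]
  have h1 : ∀ τ ∈ T.powerset, (nz M ^ k) (fun y => 1 - ind (pull F) (sig T τ ∪ y)) ∅ ≤
      (1 / 2 : ℝ) ^ k := by
    intro τ hτ
    have e : (fun y => 1 - ind (pull F) (sig T τ ∪ y)) =
        (fun _ => (1 : ℝ)) - fun y => ind (pull F) (sig T τ ∪ y) := by
      funext y; simp
    rw [e, map_sub, nz_pow_const]
    simp only [Pi.sub_apply]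
    rw [nz_pow_shift, union_empty]
    have := hTp τ hτ
    linarith
  refine (Finset.sum_le_sum h1).trans ?_
  rw [Finset.sum_const, nsmul_eq_mul, card_powerset]
  push_cast
  refine mul_le_mul_of_nonneg_right ?_ (by positivity)
  exact pow_le_pow_right₀ (by norm_num) hTc

theorem exists_closure_aux (M k c : ℕ) (n : ℕ) :
    ∀ F : Set (Finset (α × β)), IsUpperSet F → Gen c F →
      (smallOut c F).card ≤ n →
      ∃ S : Set (Finset (α × β)), IsUpperSet S ∧ Closed M k c S ∧ F ⊆ S ∧ Gen c S ∧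
        (nz M ^ k) (ind (pull (S \ F))) ∅ ≤ n * (2 ^ c * (1 / 2 : ℝ) ^ k) := by
  have hzero : ∀ F : Set (Finset (α × β)), ind (pull (F \ F)) =
      fun _ : Finset (α ⊕ β) => (0 : ℝ) := by
    intro F
    funext y
    rw [ind_of_notMem]
    intro h
    exact h.2 h.1
  induction n with
  | zero =>
    intro F hF hg hn
    refine ⟨F, hF, ?_, Set.Subset.refl F, hg, ?_⟩
    · intro T _ hT _
      by_contra hTF
      have : T ∈ smallOut c F := mem_smallOut.mpr ⟨hT, hTF⟩
      rw [Nat.le_zero, card_eq_zero] at hn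
      rw [hn] at this
      exact absurd this (notMem_empty T)
    · rw [hzero, nz_pow_const]; simp
  | succ n ih =>
    intro F hF hg hn
    by_cases hcl : Closed M k c F
    · refine ⟨F, hF, hcl, Set.Subset.refl F, hg, ?_⟩
      rw [hzero, nz_pow_const]
      simp only
      positivity
    · unfold Closed at hcl
      push Not at hcl
      obtain ⟨T, hTM, hTc, hTp, hTF⟩ := hcl
      set F' : Set (Finset (α × β)) := F ∪ {y | T ⊆ y} with hF'
      have hup : IsUpperSet F' := by
        apply hF.union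
        intro a b hab ha
        exact Subset.trans ha hab
      have hg' : Gen c F' := by
        rintro y (hy | hy)
        · obtain ⟨T1, h1, h2, h3⟩ := hg y hy
          exact ⟨T1, Or.inl h1, h2, h3⟩
        · exact ⟨T, Or.inr (Subset.refl T), hy, hTc⟩
      have hlt : (smallOut c F').card < (smallOut c F).card := by
        apply card_lt_card
        refine ⟨?_, ?_⟩
        · intro U hU
          rw [mem_smallOut] at hU ⊢
          exact ⟨hU.1, fun h => hU.2 (Or.inl h)⟩
        · intro h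
          have h2 := h (mem_smallOut.mpr ⟨hTc, hTF⟩)
          rw [mem_smallOut] at h2
          exact h2.2 (Or.inr (Subset.refl T))
      obtain ⟨S, hS1, hS2, hS3, hS4, hS5⟩ := ih F' hup hg' (by omega)
      refine ⟨S, hS1, hS2, (Set.subset_union_left).trans hS3, hS4, ?_⟩
      have hle : ind (pull (S \ F)) ≤ ind (pull (S \ F')) +
          ∑ τ ∈ T.powerset, fun y => 1 - ind (pull F) (sig T τ ∪ y) := by
        intro y
        rw [Pi.add_apply, Finset.sum_apply]
        have hnn : ∀ τ ∈ T.powerset, (0 : ℝ) ≤ 1 - ind (pull F) (sig T τ ∪ y) := by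
          intro τ _
          linarith [ind_le_one (pull F) (sig T τ ∪ y)]
        have hc := ind_nonneg (pull (S \ F')) y
        have hs := Finset.sum_nonneg hnn
        by_cases hy : y ∈ pull (S \ F)
        · rw [ind_of_mem hy]
          by_cases hyT : T ⊆ touch y
          · obtain ⟨τ, hτ, hτy⟩ := exists_sig hyT
            have h1 : sig T τ ∪ y = y := union_eq_right.mpr hτy
            have h2 := Finset.single_le_sum hnn hτ
            have h3 : y ∉ pull F := fun h => hy.2 h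
            rw [h1, ind_of_notMem h3] at h2
            linarith
          · have : y ∈ pull (S \ F') := by
              refine ⟨hy.1, ?_⟩
              rintro (h | h)
              · exact hy.2 h
              · exact hyT h
            rw [ind_of_mem this]; linarith
        · rw [ind_of_notMem hy]; linarith
      have h1 := nz_pow_mono M k hle ∅
      rw [map_add] at h1
      rw [Pi.add_apply] at h1
      have h2 := sum_ind_le M k c hTc hTp
      push_cast
      linarith

theorem exists_closure (M k c : ℕ) (F : Set (Finset (α × β))) (hF : IsUpperSet F)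
    (hg : Gen c F) :
      ∃ S : Set (Finset (α × β)), IsUpperSet S ∧ Closed M k c S ∧ F ⊆ S ∧ Gen c S ∧
        (nz M ^ k) (ind (pull (S \ F))) ∅ ≤
          ((Fintype.card (α × β) : ℝ) + 1) ^ c * (2 ^ c * (1 / 2 : ℝ) ^ k) := by
  classical
  have h := exists_closure_aux M k c ((Fintype.card (α × β) + 1) ^ c) F hF hg (by
    refine le_trans (card_le_card ?_) (card_small (V := α × β) c)
    intro T hT
    rw [mem_smallOut] at hT
    simp only [mem_filter, mem_univ, true_and]
    exact hT.1)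
  push_cast at h
  exact_mod_cast h

/-- The family generated by the minimal members of `S` which are matchings with at most `w`
edges. -/
def tr (S : Set (Finset (α × β))) (w : ℕ) : Set (Finset (α × β)) :=
  {y | ∃ l ≤ w, ∃ T ∈ mm S l, T ⊆ y}

theorem tr_upper (S : Set (Finset (α × β))) (w : ℕ) : IsUpperSet (tr S w) := by
  rintro a b hab ⟨l, hl, T, hT, hTa⟩
  exact ⟨l, hl, T, hT, hTa.trans hab⟩

theorem tr_gen (S : Set (Finset (α × β))) (w : ℕ) : Gen w (tr S w) := by
  rintro y ⟨l, hl, T, hT, hTy⟩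
  exact ⟨T, ⟨l, hl, T, hT, Finset.Subset.refl T⟩, hTy, by rw [(mem_mm.mp hT).2.1]; exact hl⟩

theorem tr_subset {S : Set (Finset (α × β))} (hS : IsUpperSet S) (w : ℕ) : tr S w ⊆ S := by
  rintro y ⟨l, _, T, hT, hTy⟩
  exact hS hTy (mem_mm.mp hT).1

section dist

variable {Y : Type} [Fintype Y] [Nonempty Y] (cw : Y → Finset (α × β))

/-- Sum over the minimal matchings. -/
theorem expect_le_mm (S : Set (Finset (α × β))) {w : ℕ} {q : ℝ} (hsp : Spread cw w q)
    (L : Finset ℕ) (hL : ∀ l ∈ L, l ≤ 2 * w) (A : Set (Finset (α × β)))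
    (hA : ∀ y : Y, cw y ∈ A → ∃ l ∈ L, ∃ T ∈ mm S l, T ⊆ cw y) :
    (𝔼 y : Y, ind A (cw y)) ≤ ∑ l ∈ L, ((mm S l).card : ℝ) * (1 / q) ^ l := by
  have h1 : ∀ y : Y, ind A (cw y) ≤ ∑ l ∈ L, ∑ T ∈ mm S l, (if T ⊆ cw y then (1 : ℝ) else 0) := by
    intro y
    have hnn : ∀ l ∈ L, (0 : ℝ) ≤ ∑ T ∈ mm S l, (if T ⊆ cw y then (1 : ℝ) else 0) := by
      intro l _
      apply Finset.sum_nonneg
      intro T _
      split_ifs <;> norm_num
    by_cases hy : cw y ∈ A
    · rw [ind_of_mem hy]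
      obtain ⟨l, hl, T, hT, hTy⟩ := hA y hy
      have h2 : (1 : ℝ) ≤ ∑ T ∈ mm S l, (if T ⊆ cw y then (1 : ℝ) else 0) := by
        have := Finset.single_le_sum (f := fun T => (if T ⊆ cw y then (1 : ℝ) else 0))
          (s := mm S l) (fun T _ => by split_ifs <;> norm_num) hT
        simpa [hTy] using this
      exact h2.trans (Finset.single_le_sum hnn hl)
    · rw [ind_of_notMem hy]
      exact Finset.sum_nonneg hnn
  refine (Finset.expect_le_expect fun y _ => h1 y).trans ?_
  rw [Finset.expect_sum_comm]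
  refine Finset.sum_le_sum fun l hl => ?_
  rw [Finset.expect_sum_comm]
  have h3 : ∀ T ∈ mm S l, (𝔼 y : Y, (if T ⊆ cw y then (1 : ℝ) else 0)) ≤ (1 / q) ^ l := by
    intro T hT
    have h4 := (mem_mm.mp hT).2.1
    have := hsp T (by rw [h4]; exact hL l hl)
    rwa [h4] at this
  refine (Finset.sum_le_sum h3).trans ?_
  rw [Finset.sum_const, nsmul_eq_mul]

/-- Subsets of a matching contain minimal members which are matchings. -/
theorem exists_mm {S : Set (Finset (α × β))} {T : Finset (α × β)} (hTM : IsM T) (hT : T ∈ S) :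
    ∃ T0, T0 ⊆ T ∧ T0 ∈ mm S T0.card := by
  obtain ⟨T0, h3, h4, h5⟩ := exists_min T hT
  exact ⟨T0, h3, mem_mm.mpr ⟨h4, rfl, hTM.subset h3, h5⟩⟩

/-- The random matching is dominated by the random star graph on trimmed closed families. -/
theorem dominated (M k w : ℕ) (hw : 1 ≤ w) (q r : ℝ) (hq0 : 0 < q)
    (hr : 4 * ((2 * w : ℕ) : ℝ) ^ 3 * ((M : ℝ) + 1) ^ 2 ≤ r) (hrq : 2 * r ≤ q)
    (hsp : Spread cw w q) {S : Set (Finset (α × β))} (hS : IsUpperSet S)
    (hcl : Closed M k (2 * w) S) :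
    (𝔼 y : Y, ind (tr S w) (cw y)) ≤ (nz M ^ k) (ind (pull (tr S w))) ∅ + 2 * (r / q) := by
  have hr0 : 0 ≤ r := le_trans (by positivity) hr
  have hrq0 : 0 ≤ r / q := by positivity
  by_cases h0 : (∅ : Finset (α × β)) ∈ tr S w
  · have h1 := le_nz_pow M k (g := ind (pull (tr S w)))
      (fun x y hxy => ind_monotone (pull_upper (tr_upper S w)) hxy) ∅
    rw [ind_of_mem (show ∅ ∈ pull (tr S w) from tr_upper S w (empty_subset _) h0)] at h1
    have h2 : (𝔼 y : Y, ind (tr S w) (cw y)) ≤ 1 :=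
      Finset.expect_le univ_nonempty fun y _ => ind_le_one _ _
    linarith
  · have hmin0 : ∀ T ∈ mm S 0, False := by
      intro T hT
      apply h0
      have h2 := (mem_mm.mp hT).2.1
      rw [card_eq_zero] at h2
      exact ⟨0, Nat.zero_le w, T, hT, by rw [h2]⟩
    have h1 := expect_le_mm cw S hsp (Finset.Icc 1 w)
      (fun l hl => by have := (Finset.mem_Icc.mp hl).2; omega) (tr S w) (by
        rintro y ⟨l, hl, T, hT, hTy⟩
        rcases Nat.eq_zero_or_pos l with h | h
        · subst h; exact (hmin0 T hT).elim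
        · exact ⟨l, Finset.mem_Icc.mpr ⟨h, hl⟩, T, hT, hTy⟩)
    have h2 : ∀ l ∈ Finset.Icc 1 w, ((mm S l).card : ℝ) * (1 / q) ^ l ≤ (r / q) ^ l := by
      intro l hl
      rw [Finset.mem_Icc] at hl
      have h3 := mm_card M k (2 * w) (by omega) hS hcl (l := l) (by omega) r hr
      calc ((mm S l).card : ℝ) * (1 / q) ^ l ≤ r ^ l * (1 / q) ^ l :=
            mul_le_mul_of_nonneg_right h3 (by positivity)
        _ = (r / q) ^ l := by rw [← mul_pow, ← div_eq_mul_one_div]
    have h7 : ∀ n : ℕ, ∑ l ∈ Finset.Icc 1 n, (r / q) ^ l ≤ 2 * (r / q) * (1 - (1 / 2) ^ n) := by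
      have hrh : r / q ≤ 1 / 2 := by
        rw [div_le_div_iff₀ hq0 (by norm_num)]
        linarith
      intro n
      induction n with
      | zero => simp
      | succ n ih =>
        rw [Finset.sum_Icc_succ_top (by omega)]
        have h8 : (r / q) ^ (n + 1) ≤ (r / q) * (1 / 2) ^ n := by
          rw [pow_succ']
          exact mul_le_mul_of_nonneg_left (pow_le_pow_left₀ hrq0 hrh n) hrq0
        have h9 : (1 / 2 : ℝ) ^ (n + 1) = (1 / 2) * (1 / 2) ^ n := by rw [pow_succ']
        rw [h9]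
        nlinarith
    have h10 := (h1.trans (Finset.sum_le_sum h2)).trans (h7 w)
    have h11 : 0 ≤ (nz M ^ k) (ind (pull (tr S w))) ∅ := nz_pow_ind_nonneg M k _ _
    have h12 : 0 ≤ (r / q) * (1 / 2 : ℝ) ^ w := by positivity
    nlinarith

/-- Trimming costs little. -/
theorem trim_error (M k w : ℕ) (hw : 1 ≤ w) (q r : ℝ) (hq0 : 0 < q)
    (hr : 4 * ((2 * w : ℕ) : ℝ) ^ 3 * ((M : ℝ) + 1) ^ 2 ≤ r) (hrq : 2 * r ≤ q)
    (hsp : Spread cw w q) (hcw : ∀ y, IsM (cw y)) {S : Set (Finset (α × β))} (hS : IsUpperSet S)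
    (hcl : Closed M k (2 * w) S) (hgen : Gen (2 * w) S) :
    (𝔼 y : Y, ind (S \ tr S w) (cw y)) ≤ (1 / 2 : ℝ) ^ w := by
  have hr0 : 0 ≤ r := le_trans (by positivity) hr
  have h1 := expect_le_mm cw S hsp (Finset.Ioc w (2 * w))
    (fun l hl => (Finset.mem_Ioc.mp hl).2) (S \ tr S w) (by
      rintro y ⟨hy1, hy2⟩
      obtain ⟨T, hT1, hT2, hT3⟩ := hgen _ hy1
      obtain ⟨T0, h3, h7⟩ := exists_mm ((hcw y).subset hT2) hT1
      have h6 : T0.card ≤ 2 * w := (card_le_card h3).trans hT3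
      refine ⟨T0.card, Finset.mem_Ioc.mpr ⟨?_, h6⟩, T0, h7, h3.trans hT2⟩
      by_contra h8
      exact hy2 ⟨T0.card, not_lt.mp h8, T0, h7, h3.trans hT2⟩)
  have hrh : r / q ≤ 1 / 2 := by
    rw [div_le_div_iff₀ hq0 (by norm_num)]
    linarith
  have h2 : ∀ l ∈ Finset.Ioc w (2 * w), ((mm S l).card : ℝ) * (1 / q) ^ l
        ≤ (1 / 2 : ℝ) ^ l := by
    intro l hl
    rw [Finset.mem_Ioc] at hl
    have h3 := mm_card M k (2 * w) (by omega) hS hcl (l := l) hl.2 r hr
    have h6 : (0 : ℝ) ≤ (1 / q) ^ l := by positivity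
    refine (mul_le_mul_of_nonneg_right h3 h6).trans ?_
    rw [← mul_pow, ← div_eq_mul_one_div]
    exact pow_le_pow_left₀ (by positivity) hrh l
  refine h1.trans ((Finset.sum_le_sum h2).trans ?_)
  have h7 : ∀ n : ℕ, ∑ l ∈ Finset.Ioc w (w + n), (1 / 2 : ℝ) ^ l
      = (1 / 2) ^ w - (1 / 2) ^ (w + n) := by
    intro n
    induction n with
    | zero => simp
    | succ n ih =>
      rw [← add_assoc, Finset.sum_Ioc_succ_top (by omega), ih]
      ring
  have h8 := h7 w
  rw [← two_mul] at h8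
  rw [h8]
  have : (0 : ℝ) ≤ (1 / 2) ^ (2 * w) := by positivity
  linarith

/-- Approximators. -/
def Good (M k w : ℕ) (δ : ℝ) (A : Set (Finset (α × β))) : Prop :=
  IsUpperSet A ∧ Gen w A ∧ (𝔼 y : Y, ind A (cw y)) ≤ (nz M ^ k) (ind (pull A)) ∅ + δ

/-- One gate. -/
theorem gate_approx (M k w : ℕ) (hw : 1 ≤ w) (q r : ℝ) (hq0 : 0 < q)
    (hr : 4 * ((2 * w : ℕ) : ℝ) ^ 3 * ((M : ℝ) + 1) ^ 2 ≤ r) (hrq : 2 * r ≤ q)
    (hsp : Spread cw w q) (hcw : ∀ y, IsM (cw y)) {F : Set (Finset (α × β))} (hF : IsUpperSet F)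
    (hgen : Gen (2 * w) F) :
    ∃ (A : Set (Finset (α × β))) (N : Set (Finset (α ⊕ β))) (P : Set (Finset (α × β))),
      Good cw M k w (2 * (r / q)) A ∧
      (nz M ^ k) (ind N) ∅ ≤
        ((Fintype.card (α × β) : ℝ) + 1) ^ (2 * w) * (2 ^ (2 * w) * (1 / 2 : ℝ) ^ k) ∧
      (𝔼 y : Y, ind P (cw y)) ≤ (1 / 2 : ℝ) ^ w ∧
      (∀ W, W ∉ N → touch W ∈ A → touch W ∈ F) ∧ (∀ y, y ∉ P → y ∈ F → y ∈ A) := by
  obtain ⟨S, hS1, hS2, hS3, hS4, hS5⟩ := exists_closure M k (2 * w) F hF hgen
  refine ⟨tr S w, pull (S \ F), S \ tr S w, ⟨tr_upper S w, tr_gen S w,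
    dominated cw M k w hw q r hq0 hr hrq hsp hS1 hS2⟩, hS5,
    trim_error cw M k w hw q r hq0 hr hrq hsp hcw hS1 hS2 hS4, ?_, ?_⟩
  · intro W hW hWA
    by_contra hWF
    exact hW ⟨tr_subset hS1 w hWA, hWF⟩
  · intro y hy hyF
    by_contra hyA
    exact hy ⟨hS3 hyF, hyA⟩

/-- The approximation method. -/
theorem approx_method (M k w : ℕ) (hw : 1 ≤ w) (q r : ℝ) (hq0 : 0 < q)
    (hr : 4 * ((2 * w : ℕ) : ℝ) ^ 3 * ((M : ℝ) + 1) ^ 2 ≤ r) (hrq : 2 * r ≤ q)
    (hsp : Spread cw w q) (hcw : ∀ y, IsM (cw y))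
    {s : ℕ} {C : Set (Set (Finset (α × β)))} (hC : MonComp s C) :
    ∃ (N : Set (Finset (α ⊕ β))) (P : Set (Finset (α × β))),
      (nz M ^ k) (ind N) ∅ ≤ s *
        (((Fintype.card (α × β) : ℝ) + 1) ^ (2 * w) * (2 ^ (2 * w) * (1 / 2 : ℝ) ^ k)) ∧
      (𝔼 y : Y, ind P (cw y)) ≤ s * (1 / 2 : ℝ) ^ w ∧
      ∀ g ∈ C, ∃ A : Set (Finset (α × β)), Good cw M k w (2 * (r / q)) A ∧
        (∀ W, W ∉ N → touch W ∈ A → touch W ∈ g) ∧ (∀ y, y ∉ P → y ∈ g → y ∈ A) := by
  have hind0 : ind (∅ : Set (Finset (α × β))) = fun _ => (0 : ℝ) := by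
    funext y; rw [ind_of_notMem]; simp
  have hind0' : ind (∅ : Set (Finset (α ⊕ β))) = fun _ => (0 : ℝ) := by
    funext y; rw [ind_of_notMem]; simp
  have hr0 : 0 ≤ r := le_trans (by positivity) hr
  have hδ : 0 ≤ 2 * (r / q) := by positivity
  induction hC with
  | base =>
    refine ⟨∅, ∅, ?_, ?_, ?_⟩
    · rw [hind0', nz_pow_const]; simp
    · rw [hind0]; simp
    · rintro g (⟨v, rfl⟩ | rfl | rfl)
      · refine ⟨{y | v ∈ y}, ⟨?_, ?_, ?_⟩, ?_, ?_⟩
        · intro a b hab ha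
          exact hab ha
        · intro y hy
          exact ⟨{v}, by simp, by simpa using hy, by simpa using hw⟩
        · have h1 : (𝔼 y : Y, ind {y | v ∈ y} (cw y)) ≤ 1 / q := by
            have h2 := hsp {v} (by simp; omega)
            rw [card_singleton, pow_one] at h2
            refine le_trans (Finset.expect_le_expect fun y _ => ?_) h2
            by_cases hvy : v ∈ cw y
            · rw [ind_of_mem (show cw y ∈ {y | v ∈ y} from hvy), if_pos (by simpa using hvy)]
            · rw [ind_of_notMem (show cw y ∉ {y | v ∈ y} from hvy)]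
              split_ifs <;> norm_num
          have h3 : 0 ≤ (nz M ^ k) (ind (pull {y : Finset (α × β) | v ∈ y})) ∅ :=
            nz_pow_ind_nonneg M k _ _
          have h4 : (1 : ℝ) ≤ r := by
            refine le_trans ?_ hr
            have hw1 : (1 : ℝ) ≤ ((2 * w : ℕ) : ℝ) := by exact_mod_cast (by omega : 1 ≤ 2 * w)
            have hM1 : (1 : ℝ) ≤ (M : ℝ) + 1 := by linarith [Nat.cast_nonneg (α := ℝ) M]
            have h5 : (1 : ℝ) ≤ ((2 * w : ℕ) : ℝ) ^ 3 := one_le_pow₀ hw1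
            have h6 : (1 : ℝ) ≤ ((M : ℝ) + 1) ^ 2 := one_le_pow₀ hM1
            nlinarith
          have h5 : 1 / q ≤ r / q := div_le_div_of_nonneg_right h4 hq0.le
          have h6 : 0 ≤ r / q := by positivity
          linarith
        · intro W _ hW
          exact hW
        · intro y _ hy
          exact hy
      · refine ⟨Set.univ, ⟨isUpperSet_univ, ?_, ?_⟩, ?_, ?_⟩
        · intro y _
          exact ⟨∅, trivial, empty_subset y, by simp⟩
        · have h1 : ind (pull (Set.univ : Set (Finset (α × β)))) = fun _ => (1 : ℝ) := by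
            funext y; rw [ind_of_mem (show y ∈ pull Set.univ from trivial)]
          rw [h1, nz_pow_const]
          have h2 : (𝔼 y : Y, ind (Set.univ : Set (Finset (α × β))) (cw y)) ≤ 1 :=
            Finset.expect_le univ_nonempty fun y _ => ind_le_one _ _
          linarith
        · intro W _ _
          trivial
        · intro y _ _
          trivial
      · refine ⟨∅, ⟨isUpperSet_empty, ?_, ?_⟩, ?_, ?_⟩
        · intro y hy
          exact hy.elim
        · have h2 : 0 ≤ (nz M ^ k) (ind (pull (∅ : Set (Finset (α × β))))) ∅ :=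
            nz_pow_ind_nonneg M k _ _
          rw [hind0]
          have h3 : (𝔼 _y : Y, (0 : ℝ)) = 0 := Fintype.expect_const 0
          rw [h3]
          linarith
        · intro W _ hW
          exact hW.elim
        · intro y _ hy
          exact hy.elim
  | @and s C f g _ hf hg ih =>
    obtain ⟨N, P, hN, hP, hA⟩ := ih
    obtain ⟨A, ⟨hA1, hA2, _⟩, hA4, hA5⟩ := hA f hf
    obtain ⟨B, ⟨hB1, hB2, _⟩, hB4, hB5⟩ := hA g hg
    have hgen : Gen (2 * w) (A ∩ B) := by
      rintro y ⟨hy1, hy2⟩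
      obtain ⟨T1, h1, h2, h3⟩ := hA2 y hy1
      obtain ⟨T2, h4, h5, h6⟩ := hB2 y hy2
      refine ⟨T1 ∪ T2, ⟨hA1 subset_union_left h1, hB1 subset_union_right h4⟩,
        union_subset h2 h5, ?_⟩
      have := card_union_le T1 T2
      omega
    obtain ⟨A', N', P', h1, h2, h3, h4, h5⟩ :=
      gate_approx cw M k w hw q r hq0 hr hrq hsp hcw (hA1.inter hB1) hgen
    refine ⟨N ∪ N', P ∪ P', ?_, ?_, ?_⟩
    · have := nz_pow_union M k N N' (∅ : Finset (α ⊕ β))
      push_cast
      linarith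
    · have := expect_union cw P P'
      push_cast
      linarith
    · rintro a (rfl | ha)
      · refine ⟨A', h1, ?_, ?_⟩
        · intro W hW hWA
          have h6 := h4 W (fun h => hW (Or.inr h)) hWA
          exact ⟨hA4 W (fun h => hW (Or.inl h)) h6.1, hB4 W (fun h => hW (Or.inl h)) h6.2⟩
        · intro y hy hyf
          exact h5 y (fun h => hy (Or.inr h))
            ⟨hA5 y (fun h => hy (Or.inl h)) hyf.1, hB5 y (fun h => hy (Or.inl h)) hyf.2⟩
      · obtain ⟨D, hD1, hD2, hD3⟩ := hA a ha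
        exact ⟨D, hD1, fun W hW => hD2 W (fun h => hW (Or.inl h)),
          fun y hy => hD3 y (fun h => hy (Or.inl h))⟩
  | @or s C f g _ hf hg ih =>
    obtain ⟨N, P, hN, hP, hA⟩ := ih
    obtain ⟨A, ⟨hA1, hA2, _⟩, hA4, hA5⟩ := hA f hf
    obtain ⟨B, ⟨hB1, hB2, _⟩, hB4, hB5⟩ := hA g hg
    have hgen : Gen (2 * w) (A ∪ B) := by
      rintro y (hy | hy)
      · obtain ⟨T1, h1, h2, h3⟩ := hA2 y hy
        exact ⟨T1, Or.inl h1, h2, by omega⟩
      · obtain ⟨T1, h1, h2, h3⟩ := hB2 y hy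
        exact ⟨T1, Or.inr h1, h2, by omega⟩
    obtain ⟨A', N', P', h1, h2, h3, h4, h5⟩ :=
      gate_approx cw M k w hw q r hq0 hr hrq hsp hcw (hA1.union hB1) hgen
    refine ⟨N ∪ N', P ∪ P', ?_, ?_, ?_⟩
    · have := nz_pow_union M k N N' (∅ : Finset (α ⊕ β))
      push_cast
      linarith
    · have := expect_union cw P P'
      push_cast
      linarith
    · rintro a (rfl | ha)
      · refine ⟨A', h1, ?_, ?_⟩
        · intro W hW hWA
          rcases h4 W (fun h => hW (Or.inr h)) hWA with h | h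
          · exact Or.inl (hA4 W (fun h => hW (Or.inl h)) h)
          · exact Or.inr (hB4 W (fun h => hW (Or.inl h)) h)
        · intro y hy hyf
          apply h5 y (fun h => hy (Or.inr h))
          rcases hyf with h | h
          · exact Or.inl (hA5 y (fun h => hy (Or.inl h)) h)
          · exact Or.inr (hB5 y (fun h => hy (Or.inl h)) h)
      · obtain ⟨D, hD1, hD2, hD3⟩ := hA a ha
        exact ⟨D, hD1, fun W hW => hD2 W (fun h => hW (Or.inl h)),
          fun y hy => hD3 y (fun h => hy (Or.inl h))⟩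

/-- **Domination**: a monotone function computed with `s` gates is true on the random matching
`cw y` with probability at most that for the random star graph, up to a small error. -/
theorem domination (M k w : ℕ) (hw : 1 ≤ w) (q r : ℝ) (hq0 : 0 < q)
    (hr : 4 * ((2 * w : ℕ) : ℝ) ^ 3 * ((M : ℝ) + 1) ^ 2 ≤ r) (hrq : 2 * r ≤ q)
    (hsp : Spread cw w q) (hcw : ∀ y, IsM (cw y))
    (hkw : ((Fintype.card (α × β) : ℝ) + 1) ^ (2 * w) * (2 ^ (2 * w) * (1 / 2 : ℝ) ^ k) ≤
      (1 / 2 : ℝ) ^ w)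
    {s : ℕ} {C : Set (Set (Finset (α × β)))} (hC : MonComp s C) {g : Set (Finset (α × β))}
    (hg : g ∈ C) :
    (𝔼 y : Y, ind g (cw y)) ≤
      (nz M ^ k) (ind (pull g)) ∅ + 2 * (r / q) + s * (2 * (1 / 2 : ℝ) ^ w) := by
  obtain ⟨N, P, hN, hP, hA⟩ := approx_method cw M k w hw q r hq0 hr hrq hsp hcw hC
  obtain ⟨A, ⟨_, _, hA3⟩, hA4, hA5⟩ := hA g hg
  have h1 : (𝔼 y : Y, ind g (cw y)) ≤ (𝔼 y : Y, ind A (cw y)) + (𝔼 y : Y, ind P (cw y)) := by
    rw [← Finset.expect_add_distrib]
    refine Finset.expect_le_expect fun y _ => ?_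
    by_cases h : cw y ∈ g
    · rw [ind_of_mem h]
      by_cases h2 : cw y ∈ P
      · rw [ind_of_mem h2]; linarith [ind_nonneg A (cw y)]
      · rw [ind_of_mem (hA5 _ h2 h)]; linarith [ind_nonneg P (cw y)]
    · rw [ind_of_notMem h]; linarith [ind_nonneg A (cw y), ind_nonneg P (cw y)]
  have h2 : (nz M ^ k) (ind (pull A)) ∅ ≤
      (nz M ^ k) (ind (pull g)) ∅ + (nz M ^ k) (ind N) ∅ := by
    have h3 : ind (pull A) ≤ ind (pull g) + ind N := by
      intro W
      simp only [Pi.add_apply]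
      by_cases h : W ∈ pull A
      · rw [ind_of_mem h]
        by_cases h2 : W ∈ N
        · rw [ind_of_mem h2]; linarith [ind_nonneg (pull g) W]
        · rw [ind_of_mem (show W ∈ pull g from hA4 _ h2 h)]; linarith [ind_nonneg N W]
      · rw [ind_of_notMem h]; linarith [ind_nonneg (pull g) W, ind_nonneg N W]
    have h4 := nz_pow_mono M k h3 ∅
    rw [map_add] at h4
    simpa only [Pi.add_apply] using h4
  have h5 := mul_le_mul_of_nonneg_left hkw (Nat.cast_nonneg (α := ℝ) s)
  linarith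

end dist

end Pool.Agent.PMB
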