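import Pool.Agent.PMB.Sec
import Pool.Agent.NegLim.Mono

/-!
# Closed families of bipartite graphs: few minimal matchings
-/

namespace Pool.Agent.PMB

open Finset Pool.Agent.NegLim
open scoped BigOperators

set_option linter.unusedSectionVars false

variable {α β : Type} [Fintype α] [DecidableEq α] [Fintype β] [DecidableEq β]

/-- The edges which have an end in `x`. -/
def touch (x : Finset (α ⊕ β)) : Finset (α × β) :=
  univ.filter fun e => Sum.inl e.1 ∈ x ∨ Sum.inr e.2 ∈ x

theorem mem_touch {x : Finset (α ⊕ β)} {e : α × β} :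
    e ∈ touch x ↔ Sum.inl e.1 ∈ x ∨ Sum.inr e.2 ∈ x := by
  simp [touch]

theorem touch_mono {x y : Finset (α ⊕ β)} (h : x ⊆ y) : touch x ⊆ touch y := by
  intro e he
  rw [mem_touch] at he ⊢
  exact he.imp (fun h' => h h') (fun h' => h h')

/-- Matchings. -/
def IsM (T : Finset (α × β)) : Prop :=
  ∀ e ∈ T, ∀ e' ∈ T, (e.1 = e'.1 ∨ e.2 = e'.2) → e = e'

theorem IsM.subset {T T' : Finset (α × β)} (h : IsM T) (h' : T' ⊆ T) : IsM T' :=
  fun e he e' he' => h e (h' he) e' (h' he')

/-- A transversal of the set of edges `T`. -/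
def sig (T τ : Finset (α × β)) : Finset (α ⊕ β) :=
  (τ.image fun e => Sum.inl e.1) ∪ ((T \ τ).image fun e => Sum.inr e.2)

theorem exists_sig {T : Finset (α × β)} {x : Finset (α ⊕ β)} (h : T ⊆ touch x) :
    ∃ τ ∈ T.powerset, sig T τ ⊆ x := by
  classical
  refine ⟨T.filter fun e => Sum.inl e.1 ∈ x, mem_powerset.mpr (filter_subset _ _), ?_⟩
  intro v hv
  rw [sig, mem_union, mem_image, mem_image] at hv
  rcases hv with ⟨e, he, rfl⟩ | ⟨e, he, rfl⟩
  · exact (mem_filter.mp he).2
  · rw [mem_sdiff, mem_filter, not_and] at he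
    exact ((mem_touch.mp (h he.1)).resolve_left (he.2 he.1))

theorem subset_touch_sig {T τ : Finset (α × β)} : T ⊆ touch (sig T τ) := by
  intro e he
  rw [mem_touch, sig, mem_union, mem_union]
  by_cases h : e ∈ τ
  · exact Or.inl (Or.inl (mem_image.mpr ⟨e, h, rfl⟩))
  · exact Or.inr (Or.inr (mem_image.mpr ⟨e, mem_sdiff.mpr ⟨he, h⟩, rfl⟩))

/-- The vertex sets `x` for which the graph `touch x` is in `S`. -/
def pull (S : Set (Finset (α × β))) : Set (Finset (α ⊕ β)) := {x | touch x ∈ S}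

theorem pull_upper {S : Set (Finset (α × β))} (hS : IsUpperSet S) : IsUpperSet (pull S) :=
  fun _ _ h hx => hS (touch_mono h) hx

/-- `S` is closed. -/
def Closed (M k c : ℕ) (S : Set (Finset (α × β))) : Prop :=
  ∀ T : Finset (α × β), IsM T → T.card ≤ c →
    (∀ τ ∈ T.powerset, 1 - (1 / 2 : ℝ) ^ k ≤ (nz M ^ k) (ind (pull S)) (sig T τ)) → T ∈ S

open Classical in
/-- The minimal members of `S` which are matchings with `l` edges. -/
noncomputable def mm (S : Set (Finset (α × β))) (l : ℕ) : Finset (Finset (α × β)) :=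
  univ.filter fun T => T ∈ S ∧ T.card = l ∧ IsM T ∧ ∀ T', T' ⊂ T → T' ∉ S

theorem mem_mm {S : Set (Finset (α × β))} {l : ℕ} {T : Finset (α × β)} :
    T ∈ mm S l ↔ T ∈ S ∧ T.card = l ∧ IsM T ∧ ∀ T', T' ⊂ T → T' ∉ S := by
  simp [mm]

section count

variable (F : Finset (Finset (α × β))) (l : ℕ) (hl : ∀ T ∈ F, T.card = l) (hM : ∀ T ∈ F, IsM T)
  (r t : ℝ) (M0 : Finset (α × β)) (Y : Finset α)

/-- The members of `F` which contain `M0` and cover `Y` outside `M0`. -/
def Nf (F : Finset (Finset (α × β))) (p : Finset (α × β) × Finset α) : Finset (Finset (α × β)) :=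
  F.filter fun T => p.1 ⊆ T ∧ p.2 ⊆ (T \ p.1).image Prod.fst

/-- One end of an edge. -/
def endp (Y : Finset α) (e : α × β) : α ⊕ β := if e.1 ∈ Y then Sum.inr e.2 else Sum.inl e.1

theorem endp_eq_inl {Y : Finset α} {e : α × β} {a : α} (h : endp Y e = Sum.inl a) :
    e.1 ∉ Y ∧ e.1 = a := by
  unfold endp at h
  split_ifs at h with h'
  exact ⟨h', Sum.inl.inj h⟩

theorem endp_eq_inr {Y : Finset α} {e : α × β} {b : β} (h : endp Y e = Sum.inr b) :
    e.1 ∈ Y ∧ e.2 = b := by
  unfold endp at h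
  split_ifs at h with h'
  exact ⟨h', Sum.inr.inj h⟩

theorem endp_inj {Y : Finset α} {T : Finset (α × β)} (hT : IsM T) :
    Set.InjOn (endp Y) (T : Set (α × β)) := by
  intro e he e' he' h
  rcases h1 : endp Y e with a | b
  · have h2 := endp_eq_inl h1
    have h3 := endp_eq_inl (h.symm.trans h1)
    exact hT e he e' he' (Or.inl (h2.2.trans h3.2.symm))
  · have h2 := endp_eq_inr h1
    have h3 := endp_eq_inr (h.symm.trans h1)
    exact hT e he e' he' (Or.inr (h2.2.trans h3.2.symm))

/-- The sets `U(T)`. -/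
def UU (M0 : Finset (α × β)) (Y : Finset α) (T : Finset (α × β)) : Finset (α ⊕ β) :=
  (T \ M0).image (endp Y)

theorem card_UU {T : Finset (α × β)} (hT : IsM T) (h : M0 ⊆ T) :
    (UU M0 Y T).card = T.card - M0.card := by
  rw [UU, card_image_of_injOn ((endp_inj hT).mono (by
    intro e he
    exact (mem_sdiff.mp he).1)), card_sdiff_of_subset h]

include hl hM in
/-- The number of `T` with `J ⊆ U(T)`. -/
theorem link (hr : 0 < r) (ht : 0 < t)
    (hmax : ∀ p : Finset (α × β) × Finset α,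
      ((Nf F p).card : ℝ) * r ^ p.1.card * t ^ p.2.card ≤
        ((Nf F (M0, Y)).card : ℝ) * r ^ M0.card * t ^ Y.card) (hne : (Nf F (M0, Y)).Nonempty)
    (J : Finset (α ⊕ β)) :
    (((Nf F (M0, Y)).filter fun T => J ⊆ UU M0 Y T).card : ℝ) ≤
      (Nf F (M0, Y)).card * ((l * t / r) ^ J.toRight.card * (1 / t) ^ J.toLeft.card) := by
  classical
  set Fs := Nf F (M0, Y) with hFs
  have hY : Y.card ≤ l := by
    obtain ⟨T, hT⟩ := hne
    rw [hFs, Nf, mem_filter] at hT
    calc Y.card ≤ ((T \ M0).image Prod.fst).card := card_le_card hT.2.2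
      _ ≤ (T \ M0).card := card_image_le
      _ ≤ T.card := card_le_card sdiff_subset
      _ = l := hl T hT.1
  set B := J.toRight with hB
  set Z := J.toLeft with hZ
  -- the set of edges given by a choice function
  let jf : (↥B → ↥Y) → Finset (α × β) := fun φ => univ.image fun b : ↥B => ((φ b : α), (b : β))
  let A : (↥B → ↥Y) → Finset (Finset (α × β)) := fun φ =>
    Fs.filter fun T => J ⊆ UU M0 Y T ∧ jf φ ⊆ T \ M0
  have hcover : (Fs.filter fun T => J ⊆ UU M0 Y T) ⊆ univ.biUnion A := by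
    intro T hT
    rw [mem_filter] at hT
    have hch : ∀ b : ↥B, ∃ a : ↥Y, ((a : α), (b : β)) ∈ T \ M0 := by
      intro b
      have h1 : (Sum.inr (b : β) : α ⊕ β) ∈ UU M0 Y T := hT.2 (mem_toRight.mp b.2)
      rw [UU, mem_image] at h1
      obtain ⟨e, he, h2⟩ := h1
      have h3 := endp_eq_inr h2
      refine ⟨⟨e.1, h3.1⟩, ?_⟩
      change (e.1, (b : β)) ∈ T \ M0
      rw [← h3.2]
      exact he
    choose φ hφ using hch
    rw [mem_biUnion]
    refine ⟨φ, mem_univ _, mem_filter.mpr ⟨hT.1, hT.2, ?_⟩⟩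
    intro e he
    obtain ⟨b, _, rfl⟩ := mem_image.mp he
    exact hφ b
  have hA : ∀ φ, ((A φ).card : ℝ) ≤ Fs.card * ((t / r) ^ B.card * (1 / t) ^ Z.card) := by
    intro φ
    rcases (A φ).eq_empty_or_nonempty with h0 | ⟨T, hT⟩
    · rw [h0, card_empty, Nat.cast_zero]
      positivity
    · obtain ⟨hTF, hJU, hjT⟩ := mem_filter.mp hT
      rw [hFs, Nf, mem_filter] at hTF
      obtain ⟨hTF, hM0, hYT⟩ := hTF
      have hTM := hM T hTF
      -- the choice function is injective
      have hφ : Function.Injective φ := by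
        intro b b' h
        have h1 : ((φ b : α), (b : β)) ∈ T \ M0 := hjT (mem_image.mpr ⟨b, mem_univ _, rfl⟩)
        have h2 : ((φ b' : α), (b' : β)) ∈ T \ M0 := hjT (mem_image.mpr ⟨b', mem_univ _, rfl⟩)
        have h3 := hTM _ (mem_sdiff.mp h1).1 _ (mem_sdiff.mp h2).1 (Or.inl (by rw [h]))
        exact Subtype.ext (Prod.ext_iff.mp h3).2
      have hcJ : (jf φ).card = B.card := by
        rw [card_image_of_injective _ (by
          intro b b' h
          exact Subtype.ext (Prod.ext_iff.mp h).2), card_univ, Fintype.card_coe]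
      have hdis : Disjoint M0 (jf φ) := by
        rw [Finset.disjoint_left]
        intro e he he'
        exact (mem_sdiff.mp (hjT he')).2 he
      have hZY : Disjoint Y Z := by
        rw [Finset.disjoint_left]
        intro a ha haZ
        have h1 : (Sum.inl a : α ⊕ β) ∈ UU M0 Y T := hJU (mem_toLeft.mp haZ)
        rw [UU, mem_image] at h1
        obtain ⟨e, _, h2⟩ := h1
        have h3 := endp_eq_inl h2
        exact h3.1 (by rw [h3.2]; exact ha)
      set im : Finset α := univ.image fun b : ↥B => (φ b : α) with him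
      have himY : im ⊆ Y := by
        intro a ha
        obtain ⟨b, _, rfl⟩ := mem_image.mp ha
        exact (φ b).2
      have himc : im.card = B.card := by
        rw [him, card_image_of_injective _ (by
          intro b b' h
          exact hφ (Subtype.ext h)), card_univ, Fintype.card_coe]
      have hsub : A φ ⊆ Nf F (M0 ∪ jf φ, (Y \ im) ∪ Z) := by
        intro T' hT'
        obtain ⟨hTF', hJU', hjT'⟩ := mem_filter.mp hT'
        rw [hFs, Nf, mem_filter] at hTF'
        obtain ⟨hTF', hM0', hYT'⟩ := hTF'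
        rw [Nf, mem_filter]
        refine ⟨hTF', union_subset hM0' (hjT'.trans sdiff_subset), ?_⟩
        intro a ha
        rw [mem_image]
        rcases mem_union.mp ha with ha | ha
        · rw [mem_sdiff] at ha
          obtain ⟨e, he, h1⟩ := mem_image.mp (hYT' ha.1)
          refine ⟨e, ?_, h1⟩
          rw [mem_sdiff, mem_union, not_or]
          refine ⟨(mem_sdiff.mp he).1, (mem_sdiff.mp he).2, fun h2 => ha.2 ?_⟩
          obtain ⟨b, _, h3⟩ := mem_image.mp h2
          rw [him, mem_image]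
          exact ⟨b, mem_univ _, by rw [← h1, ← h3]⟩
        · have h1 : (Sum.inl a : α ⊕ β) ∈ UU M0 Y T' := hJU' (mem_toLeft.mp ha)
          rw [UU, mem_image] at h1
          obtain ⟨e, he, h2⟩ := h1
          have h3 := endp_eq_inl h2
          refine ⟨e, ?_, h3.2⟩
          rw [mem_sdiff, mem_union, not_or]
          refine ⟨(mem_sdiff.mp he).1, (mem_sdiff.mp he).2, fun h4 => h3.1 ?_⟩
          obtain ⟨b, _, h5⟩ := mem_image.mp h4
          rw [← h5]
          exact (φ b).2
      have h1 := hmax (M0 ∪ jf φ, (Y \ im) ∪ Z)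
      have hc1 : (M0 ∪ jf φ).card = M0.card + B.card := by
        rw [card_union_of_disjoint hdis, hcJ]
      have hc2 : ((Y \ im) ∪ Z).card = (Y.card - B.card) + Z.card := by
        rw [card_union_of_disjoint (disjoint_of_subset_left sdiff_subset hZY),
          card_sdiff_of_subset himY, himc]
      have hBY : B.card ≤ Y.card := by
        rw [← himc]
        exact card_le_card himY
      simp only at h1
      rw [hc1, hc2, pow_add, pow_add] at h1
      have h2 : ((A φ).card : ℝ) ≤ ((Nf F (M0 ∪ jf φ, (Y \ im) ∪ Z)).card : ℝ) := by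
        exact_mod_cast card_le_card hsub
      have hYpow : t ^ Y.card = t ^ (Y.card - B.card) * t ^ B.card := by
        rw [← pow_add, Nat.sub_add_cancel hBY]
      rw [hYpow] at h1
      have h3 : ((A φ).card : ℝ) * (r ^ M0.card * r ^ B.card) *
          (t ^ (Y.card - B.card) * t ^ Z.card) ≤
          Fs.card * r ^ M0.card * (t ^ (Y.card - B.card) * t ^ B.card) := by
        refine le_trans ?_ h1
        gcongr
      have h4 : (0 : ℝ) < r ^ M0.card * t ^ (Y.card - B.card) * (r ^ B.card * t ^ Z.card) := by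
        positivity
      refine le_of_mul_le_mul_right ?_ h4
      calc ((A φ).card : ℝ) * (r ^ M0.card * t ^ (Y.card - B.card) * (r ^ B.card * t ^ Z.card))
          = ((A φ).card : ℝ) * (r ^ M0.card * r ^ B.card) *
          (t ^ (Y.card - B.card) * t ^ Z.card) := by ring
        _ ≤ Fs.card * r ^ M0.card * (t ^ (Y.card - B.card) * t ^ B.card) := h3
        _ = Fs.card * ((t / r) ^ B.card * (1 / t) ^ Z.card) *
            (r ^ M0.card * t ^ (Y.card - B.card) * (r ^ B.card * t ^ Z.card)) := by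
          rw [div_pow, div_pow, one_pow]
          field_simp
  have hsum : (((Fs.filter fun T => J ⊆ UU M0 Y T).card : ℕ) : ℝ) ≤
      (Y.card : ℝ) ^ B.card * (Fs.card * ((t / r) ^ B.card * (1 / t) ^ Z.card)) := by
    have h1 := (card_le_card hcover).trans card_biUnion_le
    have h2 : (((Fs.filter fun T => J ⊆ UU M0 Y T).card : ℕ) : ℝ) ≤
        ∑ φ : ↥B → ↥Y, ((A φ).card : ℝ) := by exact_mod_cast h1
    refine h2.trans ((Finset.sum_le_sum fun φ _ => hA φ).trans ?_)
    rw [Finset.sum_const, card_univ, Fintype.card_fun, Fintype.card_coe, Fintype.card_coe,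
      nsmul_eq_mul]
    push_cast
    exact le_refl _
  refine hsum.trans ?_
  have hYl : (Y.card : ℝ) ^ B.card ≤ (l : ℝ) ^ B.card :=
    pow_le_pow_left₀ (Nat.cast_nonneg _) (by exact_mod_cast hY) _
  calc (Y.card : ℝ) ^ B.card * (Fs.card * ((t / r) ^ B.card * (1 / t) ^ Z.card))
      ≤ (l : ℝ) ^ B.card * (Fs.card * ((t / r) ^ B.card * (1 / t) ^ Z.card)) := by
        apply mul_le_mul_of_nonneg_right hYl; positivity
    _ = Fs.card * ((l * t / r) ^ B.card * (1 / t) ^ Z.card) := by
        rw [mul_div_assoc, mul_pow]; ring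

end count

/-- A closed family has at most `r ^ l` minimal members which are matchings with `l` edges. -/
theorem mm_card (M k c : ℕ) (hc : 1 ≤ c) {S : Set (Finset (α × β))} (hS : IsUpperSet S)
    (hcl : Closed M k c S) {l : ℕ} (hl : l ≤ c) (r : ℝ)
    (hr : 4 * (c : ℝ) ^ 3 * ((M : ℝ) + 1) ^ 2 ≤ r) : ((mm S l).card : ℝ) ≤ r ^ l := by
  classical
  by_contra hcon
  push Not at hcon
  set F := mm S l with hF
  have hlF : ∀ T ∈ F, T.card = l := fun T hT => (mem_mm.mp hT).2.1
  have hMF : ∀ T ∈ F, IsM T := fun T hT => (mem_mm.mp hT).2.2.1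
  have hc0 : (0 : ℝ) < c := by exact_mod_cast hc
  have hμ : (0 : ℝ) < (M : ℝ) + 1 := by positivity
  set t : ℝ := 2 * c * ((M : ℝ) + 1) with ht
  have ht0 : 0 < t := by positivity
  have hr0 : 0 < r := lt_of_lt_of_le (by positivity) hr
  obtain ⟨⟨M0, Y⟩, _, hmax⟩ := exists_max_image
    (univ : Finset (Finset (α × β) × Finset α))
    (fun p => ((Nf F p).card : ℝ) * r ^ p.1.card * t ^ p.2.card) ⟨(∅, ∅), mem_univ _⟩
  have hmax' : ∀ p : Finset (α × β) × Finset α,
      ((Nf F p).card : ℝ) * r ^ p.1.card * t ^ p.2.card ≤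
        ((Nf F (M0, Y)).card : ℝ) * r ^ M0.card * t ^ Y.card := fun p => hmax p (mem_univ _)
  have h0 : (F.card : ℝ) ≤ ((Nf F (M0, Y)).card : ℝ) * r ^ M0.card * t ^ Y.card := by
    have h1 := hmax' (∅, ∅)
    have h2 : Nf F (∅, ∅) = F := by
      rw [Nf, filter_true_of_mem]
      intro T _
      exact ⟨empty_subset _, empty_subset _⟩
    rw [h2, card_empty, card_empty, pow_zero, pow_zero, mul_one, mul_one] at h1
    exact h1
  have hbig : r ^ l < ((Nf F (M0, Y)).card : ℝ) * r ^ M0.card * t ^ Y.card := hcon.trans_le h0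
  have hne : (Nf F (M0, Y)).Nonempty := by
    rw [nonempty_iff_ne_empty]
    intro h
    rw [h, card_empty, Nat.cast_zero, zero_mul, zero_mul] at hbig
    exact absurd hbig (not_lt.mpr (pow_nonneg hr0.le _))
  obtain ⟨T0, hT0⟩ := hne
  have hT0' := hT0
  rw [Nf, mem_filter] at hT0'
  obtain ⟨hT0F, hM0T, hYT⟩ := hT0'
  simp only at hM0T hYT
  have hM0l : M0.card ≤ l := by
    rw [← hlF T0 hT0F]
    exact card_le_card hM0T
  have hM0lt : M0.card < l := by
    by_contra hge
    have hM0e : M0.card = l := by omega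
    have h1 : ∀ T ∈ Nf F (M0, Y), T = M0 := by
      intro T hT
      rw [Nf, mem_filter] at hT
      exact (eq_of_subset_of_card_le hT.2.1 (by rw [hlF T hT.1]; exact hM0e.ge)).symm
    have h2 : (Nf F (M0, Y)).card ≤ 1 := by
      rw [card_le_one]
      intro a ha b hb
      rw [h1 a ha, h1 b hb]
    have h3 : Y = ∅ := by
      have h4 := h1 T0 hT0
      rw [h4, sdiff_self] at hYT
      simpa using hYT
    rw [h3, card_empty, pow_zero, mul_one, hM0e] at hbig
    have h5 : ((Nf F (M0, ∅)).card : ℝ) ≤ 1 := by rw [← h3]; exact_mod_cast h2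
    rw [h3] at h2
    have h6 : ((Nf F (M0, ∅)).card : ℝ) * r ^ l ≤ 1 * r ^ l :=
      mul_le_mul_of_nonneg_right h5 (pow_nonneg hr0.le _)
    linarith
  -- the second moment
  set Fs := Nf F (M0, Y) with hFs
  have hd : ∀ T ∈ Fs, (UU M0 Y T).card = l - M0.card := by
    intro T hT
    rw [hFs, Nf, mem_filter] at hT
    rw [card_UU M0 Y (hMF T hT.1) hT.2.1, hlF T hT.1]
  have hlink : ∀ J : Finset (α ⊕ β), ((Fs.filter fun T => J ⊆ UU M0 Y T).card : ℝ) ≤
      Fs.card * (1 / t) ^ J.card := by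
    intro J
    refine (link F l hlF hMF r t M0 Y hr0 ht0 hmax' ⟨T0, hT0⟩ J).trans ?_
    refine mul_le_mul_of_nonneg_left ?_ (Nat.cast_nonneg _)
    rw [← card_toLeft_add_card_toRight (u := J), pow_add, mul_comm]
    refine mul_le_mul_of_nonneg_left ?_ (by positivity)
    refine pow_le_pow_left₀ (by positivity) ?_ _
    rw [div_le_div_iff₀ hr0 ht0, one_mul]
    have hlc : (l : ℝ) ≤ c := by exact_mod_cast hl
    calc (l : ℝ) * t * t ≤ c * t * t := by gcongr
      _ = 4 * (c : ℝ) ^ 3 * ((M : ℝ) + 1) ^ 2 := by rw [ht]; ring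
      _ ≤ r := hr
  have h2 : (1 + ((M : ℝ) + 1) * (1 / t)) ^ (l - M0.card) ≤ 2 := by
    have h3 : ((M : ℝ) + 1) * (1 / t) = 1 / (2 * c) := by
      rw [ht]
      field_simp
    rw [h3]
    have h4 : (1 + 1 / (2 * (c : ℝ))) ≤ Real.exp (1 / (2 * c)) := by
      have := Real.add_one_le_exp (1 / (2 * (c : ℝ)))
      linarith
    have h5 : (1 + 1 / (2 * (c : ℝ))) ^ (l - M0.card) ≤ (1 + 1 / (2 * (c : ℝ))) ^ c := by
      refine pow_le_pow_right₀ ?_ (by omega)
      have : (0 : ℝ) ≤ 1 / (2 * (c : ℝ)) := by positivity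
      linarith
    refine h5.trans ?_
    have h6 : (1 + 1 / (2 * (c : ℝ))) ^ c ≤ Real.exp (1 / (2 * c)) ^ c :=
      pow_le_pow_left₀ (by positivity) h4 c
    refine h6.trans ?_
    rw [← Real.exp_nat_mul]
    have h7 : (c : ℝ) * (1 / (2 * c)) = 1 / 2 := by field_simp
    rw [h7]
    have h8 : Real.exp (1 / 2) ^ 2 ≤ 4 := by
      rw [← Real.exp_nat_mul]
      norm_num
      have := Real.exp_one_lt_d9
      linarith
    have h9 := Real.exp_pos (1 / 2 : ℝ)
    nlinarith
  have hhalf := half_le M (l - M0.card) Fs (UU M0 Y) hd (1 / t) (by positivity) hlink h2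
    ⟨T0, hT0⟩
  -- `M0` is in `S`
  have hM0S : M0 ∈ S := by
    refine hcl M0 ((hMF T0 hT0F).subset hM0T) (by omega) fun τ hτ => ?_
    refine amplify M k (pull_upper hS) (B := sig M0 τ) ?_ _ (Subset.refl _)
    intro x hx
    refine (hhalf x).trans ?_
    refine nz_le_of M fun y hy => ?_
    by_cases hyU : y ∈ {y | ∃ T ∈ Fs, UU M0 Y T ⊆ y}
    · rw [ind_of_mem hyU]
      obtain ⟨T, hT, hTy⟩ := hyU
      have hyS : y ∈ pull S := by
        rw [hFs, Nf, mem_filter] at hT
        have hTS : T ∈ S := (mem_mm.mp hT.1).1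
        refine hS ?_ hTS
        intro e he
        by_cases he0 : e ∈ M0
        · exact touch_mono (hx.trans hy) (subset_touch_sig he0)
        · have h3 : endp Y e ∈ y := hTy (mem_image.mpr ⟨e, mem_sdiff.mpr ⟨he, he0⟩, rfl⟩)
          rw [mem_touch]
          unfold endp at h3
          split_ifs at h3 with h4
          · exact Or.inr h3
          · exact Or.inl h3
      rw [ind_of_mem hyS]
    · rw [ind_of_notMem hyU]
      exact ind_nonneg _ _
  refine (mem_mm.mp hT0F).2.2.2 M0 ?_ hM0S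
  rw [ssubset_iff_subset_ne]
  refine ⟨hM0T, fun h => ?_⟩
  rw [h, hlF T0 hT0F] at hM0lt
  omega

end Pool.Agent.PMB
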