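import Pool.Agent.PMB.Ap

/-!
# Random perfect matchings are spread
-/

namespace Pool.Agent.PMB

open Finset Pool.Agent.NegLim
open scoped BigOperators

/-- The graph of a permutation. -/
def pgraph {n : ℕ} (π : Equiv.Perm (Fin n)) : Finset (Fin n × Fin n) :=
  univ.image fun a => (a, π a)

theorem mem_pgraph {n : ℕ} {π : Equiv.Perm (Fin n)} {e : Fin n × Fin n} :
    e ∈ pgraph π ↔ π e.1 = e.2 := by
  rw [pgraph, mem_image]
  constructor
  · rintro ⟨a, -, rfl⟩; rfl
  · intro h; exact ⟨e.1, mem_univ _, by rw [h]⟩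

theorem pgraph_isM {n : ℕ} (π : Equiv.Perm (Fin n)) : IsM (pgraph π) := by
  intro e he e' he' h
  rw [mem_pgraph] at he he'
  rcases h with h | h
  · exact Prod.ext h (by rw [← he, ← he', h])
  · refine Prod.ext (π.injective ?_) h
    rw [he, he', h]

/-- The number of permutations whose graph contains `T`. -/
def cnt {n : ℕ} (T : Finset (Fin n × Fin n)) : ℕ :=
  (univ.filter fun π : Equiv.Perm (Fin n) => T ⊆ pgraph π).card

theorem cnt_step {n : ℕ} (T : Finset (Fin n × Fin n)) (e : Fin n × Fin n) (he : e ∉ T) :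
    cnt (insert e T) * (n - T.card) ≤ cnt T := by
  classical
  obtain ⟨a, b⟩ := e
  have h1 : n - T.card ≤ (univ \ T.image Prod.fst).card := by
    rw [card_sdiff_of_subset (subset_univ _), card_univ, Fintype.card_fin]
    exact Nat.sub_le_sub_left card_image_le n
  calc cnt (insert (a, b) T) * (n - T.card)
      ≤ cnt (insert (a, b) T) * (univ \ T.image Prod.fst).card := Nat.mul_le_mul_left _ h1
    _ = ((univ.filter fun π : Equiv.Perm (Fin n) => insert (a, b) T ⊆ pgraph π) ×ˢ
          (univ \ T.image Prod.fst)).card := by rw [card_product]; rfl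
    _ ≤ cnt T := by
      rw [cnt]
      refine card_le_card_of_injOn (fun p => p.1 * Equiv.swap a p.2) ?_ ?_
      · rintro ⟨π, c⟩ hp
        simp only [coe_product, Set.mem_prod, mem_coe, mem_filter, mem_univ, true_and,
          mem_sdiff, mem_image, not_exists, not_and] at hp
        simp only [coe_filter, mem_univ, true_and]
        intro x hx
        have hab : π a = b := mem_pgraph.1 (hp.1 (mem_insert_self _ _))
        have hxp : π x.1 = x.2 := mem_pgraph.1 (hp.1 (mem_insert_of_mem hx))
        rw [mem_pgraph, Equiv.Perm.mul_apply, Equiv.swap_apply_of_ne_of_ne, hxp]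
        · intro hxa
          apply he
          have : x = (a, b) := Prod.ext hxa (by rw [← hxp, hxa, hab])
          rwa [← this]
        · exact fun h => hp.2 x hx h
      · rintro ⟨π, c⟩ hp ⟨π', c'⟩ hp' h
        simp only [coe_product, Set.mem_prod, mem_coe, mem_filter, mem_univ, true_and] at hp hp'
        have hab : π a = b := mem_pgraph.1 (hp.1 (mem_insert_self _ _))
        have hab' : π' a = b := mem_pgraph.1 (hp'.1 (mem_insert_self _ _))
        simp only at h
        have h2 : (π * Equiv.swap a c) c = (π * Equiv.swap a c) c' := by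
          conv_rhs => rw [h]
          rw [Equiv.Perm.mul_apply, Equiv.Perm.mul_apply, Equiv.swap_apply_right,
            Equiv.swap_apply_right, hab, hab']
        have hc : c = c' := (π * Equiv.swap a c).injective h2
        subst hc
        have : π = π' := mul_right_cancel h
        rw [this]

theorem cnt_le {n w : ℕ} (hn : 4 * w ≤ n) (hn0 : 1 ≤ n) (T : Finset (Fin n × Fin n))
    (hT : T.card ≤ 2 * w) : (cnt T : ℝ) ≤ (1 / ((n : ℝ) / 2)) ^ T.card * (n.factorial : ℝ) := by
  classical
  induction T using Finset.induction_on with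
  | empty =>
    have : cnt (∅ : Finset (Fin n × Fin n)) = n.factorial := by
      simp [cnt, Fintype.card_perm]
    rw [this]; simp
  | insert e T he ih =>
    rw [card_insert_of_notMem he] at hT ⊢
    have h1 := ih (by omega)
    have h2 : ((cnt (insert e T) : ℕ) : ℝ) * ((n : ℝ) / 2) ≤ cnt T := by
      have h3 : ((cnt (insert e T) * (n - T.card) : ℕ) : ℝ) ≤ (cnt T : ℝ) := by
        exact_mod_cast cnt_step T e he
      refine le_trans ?_ h3
      rw [Nat.cast_mul, Nat.cast_sub (by omega)]
      refine mul_le_mul_of_nonneg_left ?_ (Nat.cast_nonneg _)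
      have h4 : (2 : ℝ) * T.card ≤ n := by
        have : 2 * T.card ≤ n := by omega
        exact_mod_cast this
      linarith
    have hn2 : (0 : ℝ) < (n : ℝ) / 2 := by
      have : (0 : ℝ) < n := by exact_mod_cast hn0
      linarith
    rw [pow_succ]
    have h5 : ((cnt (insert e T) : ℕ) : ℝ) ≤ cnt T * (1 / ((n : ℝ) / 2)) := by
      rw [mul_one_div, le_div_iff₀ hn2]; exact h2
    calc ((cnt (insert e T) : ℕ) : ℝ) ≤ cnt T * (1 / ((n : ℝ) / 2)) := h5
      _ ≤ ((1 / ((n : ℝ) / 2)) ^ T.card * (n.factorial : ℝ)) * (1 / ((n : ℝ) / 2)) :=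
        mul_le_mul_of_nonneg_right h1 (by positivity)
      _ = _ := by ring

theorem spread_pgraph {n w : ℕ} (hn : 4 * w ≤ n) (hn0 : 1 ≤ n) :
    Spread (fun π : Equiv.Perm (Fin n) => pgraph π) w ((n : ℝ) / 2) := by
  classical
  intro T hT
  rw [Fintype.expect_eq_sum_div_card, Fintype.card_perm, Fintype.card_fin, ← sum_filter,
    sum_const, nsmul_eq_mul, mul_one, div_le_iff₀ (by exact_mod_cast n.factorial_pos)]
  exact cnt_le hn hn0 T hT

end Pool.Agent.PMB
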