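import Pool.Agent.NegLim.Noise

/-!
# Second moment bound for an indexed family of sets of the same size
-/

namespace Pool.Agent.PMB

open Finset Pool.Agent.NegLim
open scoped BigOperators

set_option linter.unusedSectionVars false

variable {V : Type} [Fintype V] [DecidableEq V] {ι : Type} [DecidableEq ι]

/-- For a fixed set `R`, the sum over the family of `(M+1)^{|intersection|}`. -/
theorem sum_inter (M d : ℕ) (F : Finset ι) (U : ι → Finset V) (ρ : ℝ) (hρ : 0 ≤ ρ)
    (hlink : ∀ J : Finset V, ((F.filter fun i => J ⊆ U i).card : ℝ) ≤ F.card * ρ ^ J.card)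
    (h2 : (1 + ((M : ℝ) + 1) * ρ) ^ d ≤ 2) (R : Finset V) (hR : R.card = d) :
    ∑ i ∈ F, ((M : ℝ) + 1) ^ (R ∩ U i).card ≤ 2 * F.card := by
  have hμ : (0 : ℝ) < (M : ℝ) + 1 := by positivity
  have h1 : ∀ i ∈ F, ((M : ℝ) + 1) ^ (R ∩ U i).card
      ≤ ∑ J ∈ R.powerset, (if J ⊆ U i then ((M : ℝ) + 1) ^ J.card else 0) := by
    intro i _
    have hnn : ∀ J ∈ R.powerset, (0 : ℝ) ≤ (if J ⊆ U i then ((M : ℝ) + 1) ^ J.card else 0) := by
      intro J _
      split_ifs <;> positivity
    have hmem : R ∩ U i ∈ R.powerset := mem_powerset.mpr inter_subset_left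
    have := Finset.single_le_sum hnn hmem
    rwa [if_pos inter_subset_right] at this
  refine (Finset.sum_le_sum h1).trans ?_
  rw [Finset.sum_comm]
  have h3 : ∀ J ∈ R.powerset, ∑ i ∈ F, (if J ⊆ U i then ((M : ℝ) + 1) ^ J.card else 0) ≤
      F.card * ((((M : ℝ) + 1) * ρ) ^ J.card * 1 ^ (R.card - J.card)) := by
    intro J _
    rw [← Finset.sum_filter, Finset.sum_const, nsmul_eq_mul, one_pow, mul_one, mul_pow]
    have h4 := mul_le_mul_of_nonneg_right (hlink J)
      (show (0 : ℝ) ≤ ((M : ℝ) + 1) ^ J.card by positivity)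
    calc _ ≤ _ := h4
      _ = _ := by ring
  refine (Finset.sum_le_sum h3).trans ?_
  rw [← Finset.mul_sum, Finset.sum_pow_mul_eq_add_pow, hR, add_comm, mul_comm]
  exact mul_le_mul_of_nonneg_right h2 (Nat.cast_nonneg _)

/-- Second moment. -/
theorem half_le (M d : ℕ) (F : Finset ι) (U : ι → Finset V) (hd : ∀ i ∈ F, (U i).card = d)
    (ρ : ℝ) (hρ : 0 ≤ ρ)
    (hlink : ∀ J : Finset V, ((F.filter fun i => J ⊆ U i).card : ℝ) ≤ F.card * ρ ^ J.card)
    (h2 : (1 + ((M : ℝ) + 1) * ρ) ^ d ≤ 2) (hF : F.Nonempty) (x : Finset V) :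
    1 / 2 ≤ nz M (ind {y | ∃ i ∈ F, U i ⊆ y}) x := by
  classical
  set S : Set (Finset V) := {y | ∃ i ∈ F, U i ⊆ y} with hS
  set δ : ℝ := 1 / ((M : ℝ) + 1) with hδ
  have hμ : (0 : ℝ) < (M : ℝ) + 1 := by positivity
  have hδpos : 0 < δ := by positivity
  have hδμ : δ * ((M : ℝ) + 1) = 1 := by rw [hδ]; field_simp
  set N : (V → Fin (M + 1)) → ℝ :=
    fun ω => ∑ i ∈ F, (if U i ⊆ zset M ω then (1 : ℝ) else 0) with hN
  set I : (V → Fin (M + 1)) → ℝ := fun ω => ind S (x ∪ zset M ω) with hI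
  have hNI : ∀ ω, I ω * N ω = N ω := by
    intro ω
    by_cases h : x ∪ zset M ω ∈ S
    · simp only [hI]; rw [ind_of_mem h, one_mul]
    · have : N ω = 0 := by
        simp only [hN]
        refine Finset.sum_eq_zero fun i hi => ?_
        rw [if_neg]
        intro hsub
        exact h ⟨i, hi, hsub.trans subset_union_right⟩
      rw [this, mul_zero]
  have hI2 : ∀ ω, I ω ^ 2 = I ω := by
    intro ω
    by_cases h : x ∪ zset M ω ∈ S
    · simp only [hI]; rw [ind_of_mem h]; norm_num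
    · simp only [hI]; rw [ind_of_notMem h]; norm_num
  have hCS := Finset.expect_mul_sq_le_sq_mul_sq (univ : Finset (V → Fin (M + 1))) I N
  simp only [hNI, hI2] at hCS
  have hEN : (𝔼 ω, N ω) = F.card * δ ^ d := by
    simp only [hN]
    rw [Finset.expect_sum_comm]
    rw [Finset.sum_congr rfl (fun i hi => by
      rw [expect_subset_zset M (U i), hd i hi])]
    rw [Finset.sum_const, nsmul_eq_mul]
  have hEN2 : (𝔼 ω, N ω ^ 2) ≤ δ ^ (2 * d) * (F.card * (2 * F.card)) := by
    have e1 : ∀ ω, N ω ^ 2 = ∑ i ∈ F, ∑ j ∈ F,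
        (if U i ∪ U j ⊆ zset M ω then (1 : ℝ) else 0) := by
      intro ω
      simp only [hN, sq, Finset.sum_mul_sum]
      refine Finset.sum_congr rfl fun i _ => Finset.sum_congr rfl fun j _ => ?_
      by_cases h1 : U i ⊆ zset M ω
      · by_cases h2 : U j ⊆ zset M ω
        · rw [if_pos h1, if_pos h2, if_pos (union_subset h1 h2)]; norm_num
        · rw [if_neg h2, if_neg (fun h => h2 (subset_union_right.trans h))]; norm_num
      · rw [if_neg h1, if_neg (fun h => h1 (subset_union_left.trans h))]; norm_num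
    simp only [e1]
    rw [Finset.expect_sum_comm]
    have e2 : ∀ i ∈ F, (𝔼 ω : V → Fin (M + 1), ∑ j ∈ F,
        (if U i ∪ U j ⊆ zset M ω then (1 : ℝ) else 0))
        ≤ δ ^ (2 * d) * (2 * F.card) := by
      intro i hi
      rw [Finset.expect_sum_comm]
      have e3 : ∀ j ∈ F, (𝔼 ω : V → Fin (M + 1),
          (if U i ∪ U j ⊆ zset M ω then (1 : ℝ) else 0))
          = δ ^ (2 * d) * ((M : ℝ) + 1) ^ (U i ∩ U j).card := by
        intro j hj
        rw [expect_subset_zset]
        have hc := Finset.card_union_add_card_inter (U i) (U j)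
        rw [hd i hi, hd j hj] at hc
        have : 2 * d = (U i ∪ U j).card + (U i ∩ U j).card := by omega
        rw [this, pow_add, mul_assoc, ← mul_pow, hδμ, one_pow, mul_one]
      rw [Finset.sum_congr rfl e3, ← Finset.mul_sum]
      apply mul_le_mul_of_nonneg_left _ (by positivity)
      exact sum_inter M d F U ρ hρ hlink h2 (U i) (hd i hi)
    refine (Finset.sum_le_sum e2).trans ?_
    rw [Finset.sum_const, nsmul_eq_mul]
    apply le_of_eq; ring
  rw [hEN] at hCS
  have hEI : (𝔼 ω, I ω) = nz M (ind S) x := rfl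
  rw [hEI] at hCS
  have hnn : 0 ≤ nz M (ind S) x := by
    have := nz_mono M (g := fun _ => 0) (h := ind S) (fun y => ind_nonneg S y) x
    rwa [nz_const] at this
  have hfin : (F.card * δ ^ d : ℝ) ^ 2
      ≤ nz M (ind S) x * (δ ^ (2 * d) * (F.card * (2 * F.card))) :=
    hCS.trans (mul_le_mul_of_nonneg_left hEN2 hnn)
  have hF0 : (0 : ℝ) < F.card := by exact_mod_cast card_pos.mpr hF
  have hp : (0 : ℝ) < δ ^ (2 * d) * ((F.card : ℝ) * F.card) := by positivity
  have e : (F.card * δ ^ d : ℝ) ^ 2 = δ ^ (2 * d) * ((F.card : ℝ) * F.card) := by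
    rw [mul_pow, ← pow_mul, mul_comm d 2]; ring
  rw [e] at hfin
  have h5 : (δ ^ (2 * d) * ((F.card : ℝ) * F.card)) * 1 ≤
      (δ ^ (2 * d) * ((F.card : ℝ) * F.card)) * (2 * nz M (ind S) x) := by
    calc _ = δ ^ (2 * d) * ((F.card : ℝ) * F.card) := mul_one _
      _ ≤ _ := hfin
      _ = _ := by ring
  have h6 := le_of_mul_le_mul_left h5 hp
  linarith

end Pool.Agent.PMB
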